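import Pool.Agent.R545.PC.Main
import Pool.Agent.R890.FF.BF
import Pool.Agent.X42.FewCuts
import Pool.Agent.X42.FlowH
import Pool.Agent.X186.IC.Defs

set_option autoImplicit false
set_option linter.unusedSectionVars false
set_option linter.unusedVariables false

/-!
# Flows with allowed values: classes of graphs closed under identifications
-/

namespace Pool.Agent.H789.AL

open Finset Pool.Agent.TH362.TF Pool.Agent.R890.FF
open Pool.Agent.TH676.A (Alg FlowOn)
open Pool.Agent.TH497.BF (G Ag inA algAg)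
open Pool.Agent.R545.PC
open Pool.Agent.H160R2.CC Pool.Agent.H160R2.CC.MGraph

section
variable {V E : Type} [Fintype V] [DecidableEq V] [Fintype E] [DecidableEq E]
variable {Γ : Type} [AddCommGroup Γ] {A : Γ → Prop}

/-- Every graph obtained by identification of vertices (without a cut of one edge) has a
nowhere-zero 4-flow or a Petersen quotient. -/
def Good (s t : E → V) : Prop :=
  ∀ π : V → V, N1 (fun e => π (s e)) (fun e => π (t e)) univ →
    NZ (fun e => π (s e)) (fun e => π (t e)) univ ∨
      PQ (fun e => π (s e)) (fun e => π (t e)) univ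

theorem alg_of (hA : Alg A) {val : Fin 10 → Fin 10 → Γ} (hv : Pet A val)
    (h4 : ∃ σ : F →+ Γ, ∀ x, x ≠ 0 → A (σ x)) (s t : E → V) (hN : N1 s t univ)
    (h : Good s t) : FlowOn A s t ∅ ∅ := by
  refine alg_class hA hv h4
    (Cl := fun s' t' => ∃ π : V → V, s' = (fun e => π (s e)) ∧ t' = (fun e => π (t e))) ?_ ?_ _
    s t rfl ⟨id, rfl, rfl⟩ hN
  · rintro s' t' π ⟨ρ, rfl, rfl⟩
    exact ⟨fun v => π (ρ v), rfl, rfl⟩
  · rintro s' t' ⟨ρ, rfl, rfl⟩ h1
    exact h ρ h1

/-- few small odd cuts -/
theorem good_few (s t : E → V) (hN : N1 s t univ) (hs : X42.FewCuts.FewSmallCuts s t) :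
    Good s t := by
  intro π h1
  have hbad := X42.FewCuts.not_bad hN hs
  exact X42.FlowH.mainB _ _ univ h1 fun h2 =>
    hbad (X42.FlowH.quot_bad (f := π) (Subset.refl _) (fun e he he' => absurd he he') h2)

/-- few independent small odd cuts -/
theorem good_indep (s t : E → V) (hs : X186.IC.IndependentSmallCuts s t) : Good s t := by
  intro π h1
  obtain ⟨U, a, c, ha, hc, hU, h2⟩ := X186.IC.of_indep hs
  refine X186.IC.mainI _ _ univ h1 (U.image π) a c ha hc ?_ fun h3 => h2 ?_
  · have := card_image_le (s := U) (f := π)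
    omega
  · exact X186.IC.quot_fam (f := π) (Subset.refl _) (fun e he he' => absurd he he') h3

/-- six even subgraphs -/
theorem bf_of (s t : E → V) (hB : Pool.Agent.TH676.A.Br s t ∅ ∅) (h : Good s t) :
    FlowOn Pool.Agent.TH497.BF.Ag s t ∅ ∅ :=
  alg_of algAg petBF ⟨embBF, emb_A⟩ s t (n1_of_br hB) h

end

/-- maps to the Petersen graph -/
theorem succ_of (K : MGraph) (hB : ¬ K.HasCutEdge) (h : Good K.src K.tgt) : Succ K petersen :=
  succ_of_flow K (alg_of algPC petPC ⟨emb, Pool.Agent.R545.PC.emb_A⟩ K.src K.tgt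
    (n1_of_cut K hB) h)

end Pool.Agent.H789.AL
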